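import Mathlib

/-! Operators on `ℓ²(α)`: weighted permutation operators. -/

namespace Pool.Agent.Helper5.NE

open scoped InnerProductSpace ComplexConjugate ENNReal

noncomputable section

/-- the Hilbert space `ℓ²(α)` -/
abbrev L2 (α : Type) : Type := lp (fun _ : α => ℂ) 2

variable {α : Type}

open Classical in
/-- the standard basis vector -/
def del (u : α) : L2 α := lp.single 2 u (1 : ℂ)

/-- bounded functions -/
def Bd (c : α → ℂ) : Prop := ∃ C : ℝ, ∀ u, ‖c u‖ ≤ C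

theorem sq_summable (ξ : L2 α) : Summable fun u => ‖ξ u‖ ^ 2 := by
  have h := (lp.memℓp ξ).summable (by norm_num)
  simpa using h

theorem norm_sq_eq (ξ : L2 α) : ‖ξ‖ ^ 2 = ∑' u, ‖ξ u‖ ^ 2 := by
  have h := lp.norm_rpow_eq_tsum (p := 2) (by norm_num) ξ
  simpa using h

theorem memℓp_two {f : α → ℂ} (h : Summable fun u => ‖f u‖ ^ 2) : Memℓp f 2 := by
  refine memℓp_gen ?_
  simpa using h

theorem wp_summable (σ : Equiv.Perm α) {c : α → ℂ} {C : ℝ} (hc : ∀ u, ‖c u‖ ≤ C) (ξ : L2 α) :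
    Summable fun v => ‖c (σ.symm v) * ξ (σ.symm v)‖ ^ 2 := by
  have h1 : Summable fun u => ‖c u * ξ u‖ ^ 2 := by
    refine Summable.of_nonneg_of_le (fun u => by positivity) (fun u => ?_)
      ((sq_summable ξ).mul_left (C ^ 2))
    rw [norm_mul, mul_pow]
    have := hc u
    gcongr
  exact (Equiv.summable_iff σ.symm (f := fun u => ‖c u * ξ u‖ ^ 2)).2 h1

theorem wp_tsum (σ : Equiv.Perm α) {c : α → ℂ} {C : ℝ} (hc : ∀ u, ‖c u‖ ≤ C) (ξ : L2 α) :
    ∑' v, ‖c (σ.symm v) * ξ (σ.symm v)‖ ^ 2 ≤ C ^ 2 * ‖ξ‖ ^ 2 := by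
  rw [Equiv.tsum_eq σ.symm (fun u => ‖c u * ξ u‖ ^ 2), norm_sq_eq, ← tsum_mul_left]
  refine Summable.tsum_le_tsum (fun u => ?_) ?_ ((sq_summable ξ).mul_left _)
  · rw [norm_mul, mul_pow]
    have := hc u
    gcongr
  · exact wp_summable (Equiv.refl α) hc ξ

/-- the linear map underlying `wp` -/
def wpL (σ : Equiv.Perm α) (c : α → ℂ) (C : ℝ) (hc : ∀ u, ‖c u‖ ≤ C) : L2 α →ₗ[ℂ] L2 α where
  toFun ξ := ⟨fun v => c (σ.symm v) * ξ (σ.symm v), memℓp_two (wp_summable σ hc ξ)⟩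
  map_add' ξ η := by
    ext v
    simp [mul_add]
  map_smul' a ξ := by
    ext v
    simp [mul_left_comm]

open Classical in
/-- The weighted permutation operator `δ_u ↦ c u • δ_{σ u}` (zero when `c` is unbounded). -/
def wp (σ : Equiv.Perm α) (c : α → ℂ) : L2 α →L[ℂ] L2 α :=
  if h : Bd c then
    (wpL σ c h.choose h.choose_spec).mkContinuous (|h.choose|) (fun ξ => by
      have h1 : ‖wpL σ c h.choose h.choose_spec ξ‖ ^ 2 ≤ (|h.choose| * ‖ξ‖) ^ 2 := by
        rw [norm_sq_eq, mul_pow, sq_abs]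
        exact wp_tsum σ h.choose_spec ξ
      exact (le_abs_self _).trans (abs_le_of_sq_le_sq h1 (by positivity)))
  else 0

theorem wp_apply (σ : Equiv.Perm α) {c : α → ℂ} (hc : Bd c) (ξ : L2 α) (v : α) :
    wp σ c ξ v = c (σ.symm v) * ξ (σ.symm v) := by
  unfold wp
  rw [dif_pos hc]
  rfl

theorem wp_norm_le (σ : Equiv.Perm α) {c : α → ℂ} {C : ℝ} (hC : 0 ≤ C) (hc : ∀ u, ‖c u‖ ≤ C) :
    ‖wp σ c‖ ≤ C := by
  refine ContinuousLinearMap.opNorm_le_bound _ hC (fun ξ => ?_)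
  have h1 : ‖wp σ c ξ‖ ^ 2 ≤ (C * ‖ξ‖) ^ 2 := by
    rw [norm_sq_eq, mul_pow]
    have : (fun v => ‖wp σ c ξ v‖ ^ 2) = fun v => ‖c (σ.symm v) * ξ (σ.symm v)‖ ^ 2 := by
      funext v
      rw [wp_apply σ ⟨C, hc⟩]
    rw [this]
    exact wp_tsum σ hc ξ
  exact (le_abs_self _).trans (abs_le_of_sq_le_sq h1 (by positivity))

open Classical in
theorem del_apply (u v : α) : (del u : L2 α) v = if v = u then 1 else 0 := by
  unfold del
  rw [lp.single_apply, Pi.single_apply]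

theorem del_self (u : α) : (del u : L2 α) u = 1 := by
  rw [del_apply, if_pos rfl]

theorem del_ne {u v : α} (h : v ≠ u) : (del u : L2 α) v = 0 := by
  rw [del_apply, if_neg h]

theorem inner_del_left (u : α) (ξ : L2 α) : ⟪del u, ξ⟫_ℂ = ξ u := by
  classical
  unfold del
  rw [lp.inner_single_left]
  simp

theorem inner_del_right (u : α) (ξ : L2 α) : ⟪ξ, del u⟫_ℂ = conj (ξ u) := by
  rw [← inner_conj_symm, inner_del_left]

theorem norm_del (u : α) : ‖(del u : L2 α)‖ = 1 := by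
  have h : ⟪(del u : L2 α), del u⟫_ℂ = 1 := by rw [inner_del_left, del_self]
  rw [inner_self_eq_norm_sq_to_K] at h
  have h2 : ‖(del u : L2 α)‖ ^ 2 = 1 := by
    have h3 : (((‖(del u : L2 α)‖ ^ 2 : ℝ)) : ℂ) = ((1 : ℝ) : ℂ) := by
      push_cast
      exact h
    exact Complex.ofReal_injective h3
  nlinarith [norm_nonneg (del u : L2 α)]

theorem hasSum_del (ξ : L2 α) : HasSum (fun u => ξ u • del u) ξ := by
  classical
  have h := lp.hasSum_single (p := 2) (by norm_num) ξ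
  convert! h using 2 with u
  unfold del
  rw [← lp.single_smul]
  simp

theorem ext_del {F : Type} [NormedAddCommGroup F] [NormedSpace ℂ F] {T S : L2 α →L[ℂ] F}
    (h : ∀ u, T (del u) = S (del u)) : T = S := by
  refine ContinuousLinearMap.ext (fun ξ => ?_)
  have h1 := (hasSum_del ξ).mapL T
  have h2 := (hasSum_del ξ).mapL S
  refine h1.unique ?_
  convert h2 using 2 with u
  simp [h u]

theorem wp_del (σ : Equiv.Perm α) {c : α → ℂ} (hc : Bd c) (u : α) :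
    wp σ c (del u) = c u • del (σ u) := by
  refine lp.ext (funext fun v => ?_)
  rw [wp_apply σ hc, lp.coeFn_smul, Pi.smul_apply, smul_eq_mul]
  by_cases h : σ.symm v = u
  · subst h
    simp [del_self]
  · rw [del_ne h, del_ne (fun h2 => h (by simp [h2]))]
    simp

theorem Bd.mul {c d : α → ℂ} (hc : Bd c) (hd : Bd d) : Bd (fun u => c u * d u) := by
  obtain ⟨C, hC⟩ := hc
  obtain ⟨D, hD⟩ := hd
  refine ⟨C * D, fun u => ?_⟩
  rw [norm_mul]
  have h1 := hC u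
  have h2 := hD u
  have h3 := norm_nonneg (c u)
  gcongr
  linarith

theorem Bd.comp {β : Type} {c : α → ℂ} (hc : Bd c) (σ : β → α) : Bd (fun u => c (σ u)) :=
  ⟨hc.choose, fun u => hc.choose_spec (σ u)⟩

theorem Bd.conj {c : α → ℂ} (hc : Bd c) : Bd (fun u => conj (c u)) :=
  ⟨hc.choose, fun u => by simpa using hc.choose_spec u⟩

theorem bd_one : Bd (fun _ : α => (1 : ℂ)) := ⟨1, fun _ => by simp⟩

theorem wp_mul (σ τ : Equiv.Perm α) {c d : α → ℂ} (hc : Bd c) (hd : Bd d) :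
    wp σ c * wp τ d = wp (σ * τ) (fun u => c (τ u) * d u) := by
  refine ext_del (fun u => ?_)
  rw [wp_del _ ((hc.comp τ).mul hd), mul_apply_eq_comp, wp_del _ hd, map_smul,
    wp_del _ hc, smul_smul, mul_comm]
  rfl

theorem inner_wp (σ : Equiv.Perm α) {c : α → ℂ} (hc : Bd c) (ξ η : L2 α) :
    ⟪wp σ.symm (fun u => conj (c (σ.symm u))) ξ, η⟫_ℂ = ⟪ξ, wp σ c η⟫_ℂ := by
  rw [lp.inner_eq_tsum, lp.inner_eq_tsum, ← Equiv.tsum_eq σ.symm (fun i => ⟪_, (η : α → ℂ) i⟫_ℂ)]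
  refine tsum_congr (fun v => ?_)
  rw [wp_apply _ (hc.comp σ.symm).conj, wp_apply _ hc]
  simp [mul_comm, mul_left_comm, mul_assoc]

theorem wp_adjoint (σ : Equiv.Perm α) {c : α → ℂ} (hc : Bd c) :
    star (wp σ c) = wp σ.symm (fun u => conj (c (σ.symm u))) := by
  rw [ContinuousLinearMap.star_eq_adjoint]
  symm
  rw [ContinuousLinearMap.eq_adjoint_iff]
  exact fun ξ η => inner_wp σ hc ξ η

theorem wp_one : wp (1 : Equiv.Perm α) (fun _ => 1) = 1 := by
  refine ext_del (fun u => ?_)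
  rw [wp_del _ bd_one]
  simp

/-- the rank one operator `ζ ↦ ⟪η, ζ⟫ ξ` -/
abbrev rk (ξ η : L2 α) : L2 α →L[ℂ] L2 α := InnerProductSpace.rankOne ℂ ξ η

end

end Pool.Agent.Helper5.NE
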