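import Mathlib
import Pool.Agent.Helper5.NE.Ops

/-! Reduced words over nine letters, block data, rotations, killers and the algebra. -/

namespace Pool.Agent.Helper5.NE

open scoped InnerProductSpace ComplexConjugate ENNReal

noncomputable section

/-! ### Words -/

/-- reduced words over nine letters (elements of the free product of nine copies of `Z/2`) -/
def RW : Type := {l : List (Fin 9) // l.IsChain (· ≠ ·)}

instance : Countable RW := by unfold RW; infer_instance

namespace RW

/-- the empty word -/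
def nil : RW := ⟨[], List.isChain_nil⟩

/-- the length of a reduced word -/
def len (w : RW) : ℕ := w.1.length

/-- the reversed word -/
def rv (w : RW) : RW := ⟨w.1.reverse, by
  have h := w.2
  rw [List.isChain_reverse]
  exact h.imp (fun a b hab => hab.symm)⟩

theorem rv_rv (w : RW) : rv (rv w) = w := Subtype.ext (List.reverse_reverse _)

/-- the word without its first letter -/
def tl (w : RW) : RW := ⟨w.1.tail, w.2.tail⟩

/-- left multiplication by the letter `s` -/
def Ls (s : Fin 9) (w : RW) : RW :=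
  if h : w.1.head? = some s then w.tl else ⟨s :: w.1, by
    rcases w with ⟨_ | ⟨a, l⟩, hw⟩
    · exact List.isChain_singleton _
    · refine List.isChain_cons_cons.2 ⟨fun h2 => h (by simp [h2]), hw⟩⟩

/-- right multiplication by the letter `s` -/
def Rs (s : Fin 9) (w : RW) : RW := rv (Ls s (rv w))

theorem Ls_Ls (s : Fin 9) (w : RW) : Ls s (Ls s w) = w := by
  rcases w with ⟨_ | ⟨a, l⟩, hw⟩
  · simp [Ls, tl]
  · by_cases h : a = s
    · subst h
      have h1 : Ls a ⟨a :: l, hw⟩ = ⟨l, hw.tail⟩ := by simp [Ls, tl]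
      rw [h1]
      have h2 : ¬ (l.head? = some a) := by
        intro h3
        rcases l with _ | ⟨b, l⟩
        · simp at h3
        · simp only [List.head?_cons, Option.some.injEq] at h3
          subst h3
          exact (List.isChain_cons_cons.1 hw).1 rfl
      simp [Ls, h2]
    · simp [Ls, h, tl]

theorem Rs_Rs (s : Fin 9) (w : RW) : Rs s (Rs s w) = w := by
  unfold Rs
  rw [rv_rv, Ls_Ls, rv_rv]

theorem Ls_val (s : Fin 9) (w : RW) :
    (Ls s w).1 = if w.1.head? = some s then w.1.tail else s :: w.1 := by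
  unfold Ls
  split_ifs <;> rfl

theorem Rs_val (s : Fin 9) (w : RW) :
    (Rs s w).1 = if w.1.getLast? = some s then w.1.dropLast else w.1 ++ [s] := by
  show (Ls s (rv w)).1.reverse = _
  rw [Ls_val]
  show (if w.1.reverse.head? = some s then w.1.reverse.tail else s :: w.1.reverse).reverse = _
  rw [List.head?_reverse]
  split_ifs
  · rw [List.tail_reverse, List.reverse_reverse]
  · simp

/-- left and right multiplications commute -/
theorem Ls_Rs (s t : Fin 9) (w : RW) : Ls s (Rs t w) = Rs t (Ls s w) := by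
  refine Subtype.ext ?_
  rw [Ls_val, Rs_val, Rs_val, Ls_val]
  rcases w with ⟨w, hw⟩
  rcases w with _ | ⟨a, w⟩
  · by_cases h : t = s
    · subst h; simp
    · have h' : s ≠ t := fun h2 => h h2.symm
      simp [h, h']
  · rcases List.eq_nil_or_concat w with rfl | ⟨w', b, rfl⟩
    · by_cases h : a = s <;> by_cases h2 : a = t
      · subst h; subst h2; simp
      · subst h; simp [h2]
      · subst h2; simp [h]
      · simp [h, h2]
    · have e1 : a :: (w' ++ [b]) = (a :: w') ++ [b] := rfl
      by_cases h : a = s <;> by_cases h2 : b = t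
      · subst h; subst h2
        simp [List.getLast?_cons, List.getLast?_append, List.dropLast_append_of_ne_nil]
        try rw [e1, List.dropLast_concat]
        try simp
      · subst h
        simp [List.getLast?_cons, List.getLast?_append, h2]
      · subst h2
        simp [List.getLast?_cons, List.getLast?_append, h]
        try rw [e1, List.dropLast_concat]
        try simp [h]
      · simp [List.getLast?_cons, List.getLast?_append, h, h2]

end RW

open RW

/-- the index set of the standard basis -/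
abbrev X : Type := RW × ℕ

/-- left multiplication as a permutation of the index set (acts on the word only) -/
def Lam (s : Fin 9) : Equiv.Perm X :=
  (Function.Involutive.toPerm (fun u : X => (Ls s u.1, u.2))
    (fun u => by simp [Ls_Ls]))

theorem Lam_apply (s : Fin 9) (u : X) : Lam s u = (Ls s u.1, u.2) := rfl

theorem Lam_symm (s : Fin 9) : (Lam s).symm = Lam s := rfl

/-! ### Rotations -/

/-- A system of pairs of columns `i ↔ P i`, each pair carrying a letter `lt`; `sg i = none` when the
column `i` is not moved, otherwise the sign of `i` in its pair. -/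
structure Rot where
  P : ℕ → ℕ
  sg : ℕ → Option Bool
  lt : ℕ → Fin 9
  P_P : ∀ i, P (P i) = i
  P_none : ∀ i, sg i = none → P i = i
  sg_P : ∀ i b, sg i = some b → sg (P i) = some (!b)
  lt_P : ∀ i, lt (P i) = lt i

namespace Rot

variable (ρ : Rot)

theorem sg_P_none {i : ℕ} (h : ρ.sg i = none) : ρ.sg (ρ.P i) = none := by
  rw [ρ.P_none i h, h]

/-- `(x, i) ↦ (x·s, P i)` on the moved columns -/
def kap : X → X := fun u => if ρ.sg u.2 = none then u else (Rs (ρ.lt u.2) u.1, ρ.P u.2)

theorem kap_kap (u : X) : ρ.kap (ρ.kap u) = u := by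
  unfold kap
  by_cases h : ρ.sg u.2 = none
  · simp [h]
  · obtain ⟨b, hb⟩ := Option.ne_none_iff_exists'.1 h
    have h2 := ρ.sg_P u.2 b hb
    simp [hb, h2, ρ.lt_P, Rs_Rs, ρ.P_P]

/-- `kap` as a permutation -/
def kapE : Equiv.Perm X := Function.Involutive.toPerm ρ.kap ρ.kap_kap

/-- diagonal coefficient of the rotation -/
def c1 : X → ℂ := fun u => match ρ.sg u.2 with
  | none => 1
  | some false => ((1 / √2 : ℝ) : ℂ)
  | some true => ((-(1 / √2) : ℝ) : ℂ)

/-- off-diagonal coefficient of the rotation -/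
def c2 : X → ℂ := fun u => match ρ.sg u.2 with
  | none => 0
  | some _ => ((1 / √2 : ℝ) : ℂ)

/-- the rotation: a self-adjoint unitary commuting with the left multiplications -/
def U : L2 X →L[ℂ] L2 X := wp 1 ρ.c1 + wp ρ.kapE ρ.c2

end Rot

/-! ### Block data -/

/-- the index set of the blocks -/
abbrev BI (m : ℕ) (k : ℕ → ℕ) : Type := Σ n : ℕ, Bool × Option (Fin m) × Fin (k n)

/-- Block data inside the set `A` of columns. -/
structure BD (A : Set ℕ) where
  s : Fin 9
  m : ℕ
  k : ℕ → ℕ
  w : (n : ℕ) → Fin m → Equiv.Perm (Fin (k n))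
  b : BI m k → ℕ
  inj : Function.Injective b
  mem : ∀ p, b p ∈ A

/-- flip the Boolean coordinate -/
def flipB {m : ℕ} {k : ℕ → ℕ} : BI m k → BI m k := fun p => ⟨p.1, !p.2.1, p.2.2⟩

theorem flipB_flipB {m : ℕ} {k : ℕ → ℕ} (p : BI m k) : flipB (flipB p) = p := by
  rcases p with ⟨n, b, q⟩
  simp [flipB]

/-- cut-off functions -/
def tau (n l : ℕ) : ℝ := max 0 (1 - (l : ℝ) / ((n : ℝ) + 1))

namespace BD

variable {A : Set ℕ} (bd : BD A)

open Classical in
/-- partial inverse of `b` -/
def dec (i : ℕ) : Option (BI bd.m bd.k) := if h : ∃ p, bd.b p = i then some h.choose else none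

theorem dec_b (p : BI bd.m bd.k) : bd.dec (bd.b p) = some p := by
  have h : ∃ q, bd.b q = bd.b p := ⟨p, rfl⟩
  unfold dec
  rw [dif_pos h]
  exact congrArg some (bd.inj h.choose_spec)

theorem b_of_dec {i : ℕ} {p : BI bd.m bd.k} (h : bd.dec i = some p) : bd.b p = i := by
  unfold dec at h
  split_ifs at h with h2
  · rw [← Option.some.inj h]
    exact h2.choose_spec

theorem dec_none {i : ℕ} (h : bd.dec i = none) (p : BI bd.m bd.k) : bd.b p ≠ i := by
  rintro rfl
  rw [bd.dec_b] at h
  exact absurd h (by simp)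

/-- lift a self-map of the block index set to the columns -/
def lift (g : BI bd.m bd.k → BI bd.m bd.k) (i : ℕ) : ℕ :=
  match bd.dec i with
  | none => i
  | some p => bd.b (g p)

theorem lift_b (g : BI bd.m bd.k → BI bd.m bd.k) (p : BI bd.m bd.k) :
    bd.lift g (bd.b p) = bd.b (g p) := by
  unfold lift
  rw [dec_b]

theorem lift_none (g : BI bd.m bd.k → BI bd.m bd.k) {i : ℕ} (h : bd.dec i = none) :
    bd.lift g i = i := by
  unfold lift
  rw [h]

theorem lift_lift {g : BI bd.m bd.k → BI bd.m bd.k} (hg : ∀ p, g (g p) = p) (i : ℕ) :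
    bd.lift g (bd.lift g i) = i := by
  rcases h : bd.dec i with _ | p
  · rw [lift_none _ _ h, lift_none _ _ h]
  · rw [← bd.b_of_dec h, lift_b, lift_b, hg]

/-- the rotation attached to block data: it pairs the columns `b⟨n,false,p⟩` and `b⟨n,true,p⟩` -/
def rot : Rot where
  P := bd.lift flipB
  sg i := (bd.dec i).map (fun p => p.2.1)
  lt _ := bd.s
  P_P := bd.lift_lift flipB_flipB
  P_none i h := by
    rcases h2 : bd.dec i with _ | p
    · exact bd.lift_none _ h2
    · rw [h2] at h
      simp at h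
  sg_P i b h := by
    rcases h2 : bd.dec i with _ | p
    · rw [h2] at h
      simp at h
    · rw [h2] at h
      rw [← bd.b_of_dec h2, lift_b, dec_b]
      simp only [Option.map_some, Option.some.injEq] at h ⊢
      rw [← h]
      rfl
  lt_P _ := rfl

/-- first swap: `(true, (some j, c)) ↔ (true, (none, w_j c))` -/
def swX (j : Fin bd.m) : BI bd.m bd.k → BI bd.m bd.k
  | ⟨n, true, (some j', c)⟩ => if j' = j then ⟨n, true, (none, bd.w n j c)⟩ else ⟨n, true, (some j', c)⟩
  | ⟨n, true, (none, c)⟩ => ⟨n, true, (some j, (bd.w n j).symm c)⟩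
  | ⟨n, false, p⟩ => ⟨n, false, p⟩

/-- second swap: `(false, (none, c)) ↔ (false, (some j, c))` -/
def swY (j : Fin bd.m) : BI bd.m bd.k → BI bd.m bd.k
  | ⟨n, false, (some j', c)⟩ => if j' = j then ⟨n, false, (none, c)⟩ else ⟨n, false, (some j', c)⟩
  | ⟨n, false, (none, c)⟩ => ⟨n, false, (some j, c)⟩
  | ⟨n, true, p⟩ => ⟨n, true, p⟩

theorem swX_swX (j : Fin bd.m) (p : BI bd.m bd.k) : bd.swX j (bd.swX j p) = p := by
  rcases p with ⟨n, _ | _, _ | j', c⟩
  · rfl
  · rfl
  · simp [swX]
  · by_cases h : j' = j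
    · subst h; simp [swX]
    · simp [swX, h]

theorem swY_swY (j : Fin bd.m) (p : BI bd.m bd.k) : bd.swY j (bd.swY j p) = p := by
  rcases p with ⟨n, _ | _, _ | j', c⟩
  · simp [swY]
  · by_cases h : j' = j
    · subst h; simp [swY]
    · simp [swY, h]
  · rfl
  · rfl

/-- lift of a self-inverse map of the block index set to a permutation of `X` acting on the column -/
def colPerm (g : BI bd.m bd.k → BI bd.m bd.k) (hg : ∀ p, g (g p) = p) : Equiv.Perm X :=
  Function.Involutive.toPerm (fun u : X => (u.1, bd.lift g u.2))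
    (fun u => by simp [bd.lift_lift hg])

open Classical in
/-- coefficient of the first killer: `τ_n(|x|)` at `(x, b⟨n,true,(some j,c)⟩)` -/
def cX (j : Fin bd.m) : X → ℂ := fun u => match bd.dec u.2 with
  | some ⟨n, true, (some j', _)⟩ => if j' = j then ((tau n u.1.len : ℝ) : ℂ) else 0
  | _ => 0

/-- coefficient of the second killer: `τ_n(|x|)` at `(x, b⟨n,false,(none,c)⟩)` -/
def cY (_ : Fin bd.m) : X → ℂ := fun u => match bd.dec u.2 with
  | some ⟨n, false, (none, _)⟩ => ((tau n u.1.len : ℝ) : ℂ)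
  | _ => 0

/-- the unrotated killers `(x, b(true,(some j,c))) ↦ τ_n(|x|) (x, b(true,(none,w_j c)))` -/
def X0 (j : Fin bd.m) : L2 X →L[ℂ] L2 X := wp (bd.colPerm (bd.swX j) (bd.swX_swX j)) (bd.cX j)

/-- the unrotated killers `(x, b(false,(none,c))) ↦ τ_n(|x|) (x, b(false,(some j,c)))` -/
def Y0 (j : Fin bd.m) : L2 X →L[ℂ] L2 X := wp (bd.colPerm (bd.swY j) (bd.swY_swY j)) (bd.cY j)

/-- the rotated killers -/
def XX (j : Fin bd.m) : L2 X →L[ℂ] L2 X := bd.rot.U * bd.X0 j * bd.rot.U

/-- the rotated killers -/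
def YY (j : Fin bd.m) : L2 X →L[ℂ] L2 X := bd.rot.U * bd.Y0 j * bd.rot.U

end BD

/-- indicator of a set of odd columns -/
def oddc (χ : ℕ → Bool) : X → ℂ := fun u => if Odd u.2 ∧ χ u.2 = true then 1 else 0

/-- the generators of the algebra -/
def Gen {F : Type} (A : F → Set ℕ) (bd : ∀ f, BD (A f)) : Set (L2 X →L[ℂ] L2 X) :=
  {T | (∃ s, T = wp (Lam s) (fun _ => 1)) ∨ (∃ χ, T = wp 1 (oddc χ)) ∨ (∃ ξ η, T = rk ξ η) ∨
    (∃ f j, T = (bd f).XX j) ∨ (∃ f j, T = (bd f).YY j)}

/-- the algebra -/
def Alg {F : Type} (A : F → Set ℕ) (bd : ∀ f, BD (A f)) : StarSubalgebra ℂ (L2 X →L[ℂ] L2 X) :=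
  (StarAlgebra.adjoin ℂ (Gen A bd)).topologicalClosure

/-- completely positive and contractive, in the sense of the frozen statement -/
def CCP {A B : Type} [NonUnitalCStarAlgebra A] [NonUnitalCStarAlgebra B] (φ : A →ₗ[ℂ] B) : Prop :=
  (∀ a, ‖φ a‖ ≤ ‖a‖) ∧ ∀ (n : ℕ) (y : Matrix (Fin n) (Fin n) A),
    ∃ z : Matrix (Fin n) (Fin n) B, (star y * y).map φ = star z * z

/-- completely positive approximation property, in the sense of the frozen statement -/
def CPAP (C : Type) [NonUnitalCStarAlgebra C] : Prop :=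
  ∀ (F : Finset C) (ε : ℝ), 0 < ε →
    ∃ (D : Type) (_ : CStarAlgebra D) (_ : FiniteDimensional ℂ D)
      (φ : C →ₗ[ℂ] D) (ψ : D →ₗ[ℂ] C), CCP φ ∧ CCP ψ ∧ ∀ c ∈ F, ‖ψ (φ c) - c‖ < ε

end

end Pool.Agent.Helper5.NE
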