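import Mathlib
import Pool.Agent.Helper5.NE.Defs

/-! Exact statements of the packets for `S06356`. -/

namespace Pool.Agent.Helper5.NE

open scoped InnerProductSpace ComplexConjugate ENNReal Topology
open Filter

noncomputable section

/-! ### Quantum expander part -/

/-- P1: words in an expanding pair of permutations act on trace zero, sum zero matrices with small norm. -/
def GapStmt : Prop := ∀ η : ℝ, 0 < η → ∃ m : ℕ, 0 < m ∧ ∃ w : (k : ℕ) → Fin m → Equiv.Perm (Fin k),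
  ∀ k, 5 ≤ k → ∀ v : Fin k → Fin k → ℂ, ∑ i, v i i = 0 → ∑ i, ∑ j, v i j = 0 →
    ∑ i, ∑ j, ‖∑ l, v (w k l i) (w k l j)‖ ^ 2 ≤ (η * m) ^ 2 * ∑ i, ∑ j, ‖v i j‖ ^ 2

/-- P2: the bilinear bound with coefficients of bounded dimension. -/
def QEStmt : Prop := ∀ δ : ℝ, 0 < δ → ∃ m : ℕ, 0 < m ∧ ∃ w : (k : ℕ) → Fin m → Equiv.Perm (Fin k),
  ∀ N : ℕ, ∀ᶠ k in atTop,
    ∀ (L : Type) [NormedAddCommGroup L] [InnerProductSpace ℂ L] [FiniteDimensional ℂ L],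
    Module.finrank ℂ L ≤ N → ∀ f : Fin m → (L →L[ℂ] L), (∀ j, ‖f j‖ ≤ 1) →
    ∀ Z E : Fin k → L, ∑ c, Z c = 0 → ∑ c, E c = 0 →
    ‖∑ j, ∑ c, ⟪E (w k j c), f j (Z c)⟫_ℂ‖ ≤
      δ * m * (√(∑ c, ‖Z c‖ ^ 2) * √(∑ c, ‖E c‖ ^ 2))

/-- P3: positive functionals on matrices over a finite dimensional C*-algebra. -/
def TransferStmt : Prop := ∀ (D : Type) [CStarAlgebra D] [FiniteDimensional ℂ D],
  ∃ (L : Type) (_ : NormedAddCommGroup L) (_ : InnerProductSpace ℂ L) (_ : FiniteDimensional ℂ L)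
    (ρ : D →ₗ[ℂ] (L →L[ℂ] L)), (∀ a, ‖ρ a‖ ≤ ‖a‖) ∧
    ∀ (I : Type) [Fintype I] [DecidableEq I] (Ω : Matrix I I D →ₗ[ℂ] ℂ),
      (∀ y : Matrix I I D, 0 ≤ (Ω (star y * y)).re ∧ (Ω (star y * y)).im = 0) →
      ∀ (W : Matrix I I D) (M : ℝ), 0 ≤ M →
      (∀ Z E : I → L, ‖∑ i, ∑ j, ⟪E i, ρ (W i j) (Z j)⟫_ℂ‖ ≤
        M * (√(∑ i, ‖Z i‖ ^ 2) * √(∑ i, ‖E i‖ ^ 2))) →
      ‖Ω W‖ ≤ M * (Ω 1).re

/-- entries of the projection onto the sum zero vectors of `ℂ^k` -/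
def Pe {k : ℕ} (a c : Fin k) : ℂ := (if a = c then 1 else 0) - 1 / (k : ℂ)

/-- the form version of the bound -/
def QEP (δ : ℝ) (m k : ℕ) (w : Fin m → Equiv.Perm (Fin k)) (D : Type) [CStarAlgebra D] : Prop :=
  ∀ f : Fin m → D, (∀ j, ‖f j‖ ≤ 1) →
  ∀ S : D →ₗ[ℂ] Matrix (Fin k ⊕ Fin k) (Fin k ⊕ Fin k) ℂ,
    (∀ y : Matrix (Fin k ⊕ Fin k) (Fin k ⊕ Fin k) D,
      0 ≤ (∑ c, ∑ c', S ((star y * y) c c') c c').re ∧ (∑ c, ∑ c', S ((star y * y) c c') c c').im = 0) →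
    (∀ c, ‖S 1 c c‖ ≤ 1) →
    ‖∑ j, ∑ c, ∑ a, ∑ a', Pe a c * Pe a' (w j c) * S (f j) (Sum.inr a') (Sum.inl a)‖
      ≤ 2 * k * δ * m

/-- P4 -/
def QEFormStmt : Prop := ∀ δ : ℝ, 0 < δ → ∃ m : ℕ, 0 < m ∧
  ∃ w : (k : ℕ) → Fin m → Equiv.Perm (Fin k), ∀ (D : Type) [CStarAlgebra D] [FiniteDimensional ℂ D],
    ∀ᶠ k in atTop, QEP δ m k (w k) D

/-! ### States and forms -/

/-- P5 -/
def StateStmt : Prop := ∀ (C : Type) [NonUnitalCStarAlgebra C] (p : C), p ≠ 0 → star p = p →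
  p * p = p → ∃ ω : C →ₗ[ℂ] ℂ, (∀ c, ‖ω c‖ ≤ ‖c‖) ∧ ω p = 1 ∧
    ∀ c, 0 ≤ (ω (star c * c)).re ∧ (ω (star c * c)).im = 0

/-- complete positivity for matrices with arbitrary finite index types -/
theorem CCP.gen {A B : Type} [NonUnitalCStarAlgebra A] [NonUnitalCStarAlgebra B] {φ : A →ₗ[ℂ] B}
    (h : CCP φ) (I : Type) [Fintype I] (y : Matrix I I A) :
    ∃ z : Matrix I I B, (star y * y).map φ = star z * z := by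
  obtain ⟨z, hz⟩ := h.2 (Fintype.card I)
    (y.submatrix (Fintype.equivFin I).symm (Fintype.equivFin I).symm)
  refine ⟨z.submatrix (Fintype.equivFin I) (Fintype.equivFin I), ?_⟩
  ext i j
  have h1 := congrFun (congrFun hz (Fintype.equivFin I i)) (Fintype.equivFin I j)
  simp only [Matrix.map_apply, Matrix.mul_apply, Matrix.star_apply, Matrix.submatrix_apply,
    Equiv.symm_apply_apply] at h1 ⊢
  have e1 : ∑ x, star (y ((Fintype.equivFin I).symm x) i) * y ((Fintype.equivFin I).symm x) j =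
      ∑ x, star (y x i) * y x j :=
    Equiv.sum_comp (Fintype.equivFin I).symm (fun x => star (y x i) * y x j)
  have e2 : ∑ x, star (z (Fintype.equivFin I x) (Fintype.equivFin I i)) *
      z (Fintype.equivFin I x) (Fintype.equivFin I j) =
      ∑ x, star (z x (Fintype.equivFin I i)) * z x (Fintype.equivFin I j) :=
    Equiv.sum_comp (Fintype.equivFin I)
      (fun x => star (z x (Fintype.equivFin I i)) * z x (Fintype.equivFin I j))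
  rw [e1] at h1
  exact h1.trans e2.symm

/-- `Φ c η ξ` plays the role of `⟪η, c ξ⟫` for elements `c` of an algebra containing `Al`. -/
structure IsForm {Al : StarSubalgebra ℂ (L2 X →L[ℂ] L2 X)} {C : Type} [NonUnitalCStarAlgebra C]
    (ι : Al →⋆ₙₐ[ℂ] C) (Φ : C →ₗ[ℂ] L2 X →ₗ⋆[ℂ] L2 X →ₗ[ℂ] ℂ) : Prop where
  nle : ∀ a : Al, ‖ι a‖ ≤ ‖(a : L2 X →L[ℂ] L2 X)‖
  bound : ∀ c η ξ, ‖Φ c η ξ‖ ≤ ‖c‖ * ‖η‖ * ‖ξ‖
  emb : ∀ (a : Al) η ξ, Φ (ι a) η ξ = ⟪η, (a : L2 X →L[ℂ] L2 X) ξ⟫_ℂ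
  mul : ∀ (a b : Al) c η ξ, Φ (ι a * c * ι b) η ξ =
    Φ c (star (a : L2 X →L[ℂ] L2 X) η) ((b : L2 X →L[ℂ] L2 X) ξ)
  pos : ∀ (I : Type) [Fintype I] (z : Matrix I I C) (ξ : I → L2 X),
    0 ≤ (∑ i, ∑ j, Φ ((star z * z) i j) (ξ i) (ξ j)).re ∧
      (∑ i, ∑ j, Φ ((star z * z) i j) (ξ i) (ξ j)).im = 0

/-- P6 -/
def FormStmt : Prop := ∀ (Al : StarSubalgebra ℂ (L2 X →L[ℂ] L2 X)),
  IsClosed (Al : Set (L2 X →L[ℂ] L2 X)) → (∀ ξ η, rk ξ η ∈ Al) →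
  ∀ (C : Type) [NonUnitalCStarAlgebra C] (ι : Al →⋆ₙₐ[ℂ] C), Function.Injective ι →
    ∃ Φ, IsForm ι Φ

/-- matrices that are bounded with rows and columns tending to zero -/
structure Good (T : X → X → ℂ) : Prop where
  bd : ∀ u v, ‖T u v‖ ≤ 1
  row : ∀ u x, Tendsto (fun i : ℕ => T u (x, i)) atTop (𝓝 0)
  col : ∀ v y, Tendsto (fun i : ℕ => T (y, i) v) atTop (𝓝 0)

/-- P7 -/
def FormGoodStmt : Prop := ∀ (Al : StarSubalgebra ℂ (L2 X →L[ℂ] L2 X)) (C : Type)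
  [NonUnitalCStarAlgebra C] (ι : Al →⋆ₙₐ[ℂ] C) (Φ : C →ₗ[ℂ] L2 X →ₗ⋆[ℂ] L2 X →ₗ[ℂ] ℂ), IsForm ι Φ →
  ∀ c : C, ‖c‖ ≤ 1 → Good (fun u v => Φ c (del u) (del v)) ∧
    ∀ v, ∀ s : Finset X, ∑ u ∈ s, ‖Φ c (del u) (del v)‖ ^ 2 ≤ 1

/-- limits of matrix entries along the columns -/
def lm (U : Ultrafilter ℕ) (T : X → X → ℂ) (y x : RW) : ℂ :=
  limUnder (U : Filter ℕ) (fun i => T (y, i) (x, i))

theorem tendsto_lm (U : Ultrafilter ℕ) {T : X → X → ℂ} {B : ℝ} (hT : ∀ u v, ‖T u v‖ ≤ B) (y x : RW) :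
    Tendsto (fun i => T (y, i) (x, i)) U (𝓝 (lm U T y x)) := by
  have h := (isCompact_closedBall (0 : ℂ) B).ultrafilter_le_nhds
    (U.map (fun i => T (y, i) (x, i))) (by
      rw [le_principal_iff]
      show Metric.closedBall (0 : ℂ) B ∈ Filter.map (fun i => T (y, i) (x, i)) (U : Filter ℕ)
      rw [Filter.mem_map]
      exact Filter.univ_mem' (fun i => by
        show T (y, i) (x, i) ∈ Metric.closedBall (0 : ℂ) B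
        rw [mem_closedBall_zero_iff]
        exact hT _ _))
  obtain ⟨z, -, hz⟩ := h
  have h2 : Tendsto (fun i => T (y, i) (x, i)) U (𝓝 z) := hz
  unfold lm
  rw [h2.limUnder_eq]
  exact h2

/-! ### Part A: amenability contradiction -/

/-- the action of a (not necessarily reduced) word by left multiplications -/
def Lw : List (Fin 9) → RW → RW
  | [], w => w
  | s :: v, w => RW.Ls s (Lw v w)

/-- P8 -/
def KestenStmt : Prop := ∀ h : RW → ℝ, (∀ x, 0 ≤ h x) → (∀ F : Finset RW, ∑ x ∈ F, h x ^ 2 ≤ 1) →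
  ∀ n, ∑ v : Fin n → Fin 9, h (Lw (List.ofFn v) RW.nil) ≤ 6 ^ n

/-- P9 -/
def PartAStmt : Prop := ∀ (Al : StarSubalgebra ℂ (L2 X →L[ℂ] L2 X))
  (hL : ∀ s, wp (Lam s) (fun _ => 1) ∈ Al) (C : Type) [NonUnitalCStarAlgebra C]
  (ι : Al →⋆ₙₐ[ℂ] C) (Φ : C →ₗ[ℂ] L2 X →ₗ⋆[ℂ] L2 X →ₗ[ℂ] ℂ), IsForm ι Φ →
  ∀ (D : Type) [CStarAlgebra D] [FiniteDimensional ℂ D] (φ : C →ₗ[ℂ] D) (ψ : D →ₗ[ℂ] C),
    CCP φ → CCP ψ →
    (∀ s, ‖ψ (φ (ι ⟨wp (Lam s) (fun _ => 1), hL s⟩)) - ι ⟨wp (Lam s) (fun _ => 1), hL s⟩‖ ≤ 1 / 4) →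
    ∀ U : Ultrafilter ℕ,
      (∀ (a : D) (s : Fin 9) (x y : RW),
        lm U (fun u v => Φ (ψ a) (del u) (del v)) (RW.Rs s y) x =
        lm U (fun u v => Φ (ψ a) (del u) (del v)) y (RW.Rs s x)) → False

/-! ### Part B: the killers -/

/-- P10: selection of columns. -/
def SelStmt : Prop := ∀ (A : Set ℕ) (U : Ultrafilter ℕ), A ∈ U → (U : Filter ℕ) ≤ atTop →
  ∀ T, Good T → ∀ (P : Finset RW) (m : ℕ) (k : ℕ → ℕ), ∃ b : BI m k → ℕ, Function.Injective b ∧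
    (∀ p, b p ∈ A) ∧ ∀ (n : ℕ) (p p' : Bool × Option (Fin m) × Fin (k n)), ∀ x ∈ P, ∀ y ∈ P,
      ‖T (y, b ⟨n, p'⟩) (x, b ⟨n, p⟩) - (if p' = p then lm U T y x else 0)‖ ≤ 1 / ((n : ℝ) + 1)

/-- the block data `bd` detects the failure of invariance of `T` -/
structure Kill (T : X → X → ℂ) {A : Set ℕ} (bd : BD A) (z : ℂ) (x0 y0 : RW) : Prop where
  hz : z ≠ 0
  hm : 0 < bd.m
  hk : ∀ n, 5 ≤ bd.k n
  hQ : ∀ (D : Type) [CStarAlgebra D] [FiniteDimensional ℂ D],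
    ∀ᶠ n in atTop, QEP (‖z‖ / 16) bd.m (bd.k n) (bd.w n) D
  hT : ∀ (n : ℕ) (p p' : Option (Fin bd.m) × Fin (bd.k n)),
    ‖(1 / 2 : ℂ) * (T (RW.Rs bd.s y0, bd.b ⟨n, false, p'⟩) (x0, bd.b ⟨n, false, p⟩)
      + T (RW.Rs bd.s y0, bd.b ⟨n, false, p'⟩) (RW.Rs bd.s x0, bd.b ⟨n, true, p⟩)
      - T (y0, bd.b ⟨n, true, p'⟩) (x0, bd.b ⟨n, false, p⟩)
      - T (y0, bd.b ⟨n, true, p'⟩) (RW.Rs bd.s x0, bd.b ⟨n, true, p⟩))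
      - (if p' = p then z else 0)‖ ≤ 2 / ((n : ℝ) + 1)

/-- P11 -/
def KillExStmt : Prop := ∀ (A : Set ℕ) (U : Ultrafilter ℕ), A ∈ U → (U : Filter ℕ) ≤ atTop →
  ∀ T, Good T → ∀ (s : Fin 9) (x0 y0 : RW),
    lm U T (RW.Rs s y0) x0 ≠ lm U T y0 (RW.Rs s x0) → ∃ (bd : BD A) (z : ℂ), Kill T bd z x0 y0

/-- P12 -/
def PartBStmt : Prop := ∀ (A : Set ℕ) (bd : BD A) (T : X → X → ℂ) (z : ℂ) (x0 y0 : RW),
  Kill T bd z x0 y0 → ∀ (Al : StarSubalgebra ℂ (L2 X →L[ℂ] L2 X)), (∀ j, bd.XX j ∈ Al) →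
  (∀ j, bd.YY j ∈ Al) → ∀ (C : Type) [NonUnitalCStarAlgebra C] (ι : Al →⋆ₙₐ[ℂ] C)
  (Φ : C →ₗ[ℂ] L2 X →ₗ⋆[ℂ] L2 X →ₗ[ℂ] ℂ), IsForm ι Φ → CPAP C → ∀ b : C, ‖b‖ ≤ 1 →
  (∀ u v, T u v = Φ b (del u) (del v)) → False

/-! ### Exactness part -/

/-- P13: approximation of block diagonal compressions -/
def BlkStmt : Prop := ∀ (Z H E : Type) [NormedAddCommGroup H] [InnerProductSpace ℂ H]
  [CompleteSpace H] [NormedAddCommGroup E] [InnerProductSpace ℂ E] [FiniteDimensional ℂ E]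
  (Q : Z → (E →L[ℂ] H)) (r : ℝ), 0 < r → (∀ z, ‖Q z‖ ≤ 1) →
  (∀ ξ : H, Summable (fun z => ‖(Q z).adjoint ξ‖ ^ 2) ∧
    r * ∑' z, ‖(Q z).adjoint ξ‖ ^ 2 ≤ ‖ξ‖ ^ 2) →
  ∃ θ : (H →L[ℂ] H) →ₗ[ℂ] (H →L[ℂ] H), (∀ T, ‖θ T‖ ≤ ‖T‖) ∧
    (∀ T ξ η, HasSum (fun z => (r : ℂ) * ⟪Q z ((Q z).adjoint η), T (Q z ((Q z).adjoint ξ))⟫_ℂ)
      ⟪η, θ T ξ⟫_ℂ) ∧
    ∀ (F : Finset (H →L[ℂ] H)) (ε : ℝ), 0 < ε →
      ∃ (D : Type) (_ : CStarAlgebra D) (_ : FiniteDimensional ℂ D)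
        (φ : (H →L[ℂ] H) →ₗ[ℂ] D) (ψ : D →ₗ[ℂ] (H →L[ℂ] H)), CCP φ ∧ CCP ψ ∧
        ∀ T ∈ F, ‖ψ (φ T) - θ T‖ < ε

/-- tree-like pairs of maps -/
structure Tree (par π : X → X) : Prop where
  inj : ∀ u, Function.Injective (fun a : ℕ => par^[a] u)
  fpar : ∃ B : ℕ, ∀ z, ∃ s : Finset X, s.card ≤ B ∧ ∀ u, par u = z → u ∈ s
  fpi : ∃ B : ℕ, ∀ z, ∃ s : Finset X, s.card ≤ B ∧ ∀ u, π u = z → u ∈ s
  merge : ∀ u v, ∃ a b, par^[a] u = par^[b] v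

/-- weighted permutations of bounded displacement -/
def MonoOK (par π : X → X) (σ : Equiv.Perm X) (c : X → ℂ) : Prop :=
  Bd c ∧ ∃ d : ℕ, ∀ u, c u ≠ 0 → ∃ a ≤ d, ∃ b ≤ d, par^[a] (π u) = par^[b] (π (σ u))

/-- span of the weighted permutations of bounded displacement and the rank one operators -/
def NN (par π : X → X) : Submodule ℂ (L2 X →L[ℂ] L2 X) :=
  Submodule.span ℂ ({T | ∃ σ c, MonoOK par π σ c ∧ T = wp σ c} ∪ {T | ∃ ξ η, T = rk ξ η})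

/-- P14 -/
def FactStmt : Prop := ∀ par π : X → X, Tree par π → ∀ F : Finset (L2 X →L[ℂ] L2 X),
  (∀ T ∈ F, T ∈ NN par π) → ∀ ε : ℝ, 0 < ε →
    ∃ (D : Type) (_ : CStarAlgebra D) (_ : FiniteDimensional ℂ D)
      (φ : (L2 X →L[ℂ] L2 X) →ₗ[ℂ] D) (ψ : D →ₗ[ℂ] (L2 X →L[ℂ] L2 X)), CCP φ ∧ CCP ψ ∧
      ∀ T ∈ F, ‖ψ (φ T) - T‖ < ε

/-- P15 -/
def NNAlgStmt : Prop := ∀ par π : X → X, (1 : L2 X →L[ℂ] L2 X) ∈ NN par π ∧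
  (∀ S ∈ NN par π, ∀ T ∈ NN par π, S * T ∈ NN par π) ∧ (∀ T ∈ NN par π, star T ∈ NN par π)

/-- the generators with index in `I` -/
def GenI {F : Type} (A : F → Set ℕ) (bd : ∀ f, BD (A f)) (I : Finset F) :
    Set (L2 X →L[ℂ] L2 X) :=
  {T | (∃ s, T = wp (Lam s) (fun _ => 1)) ∨ (∃ χ, T = wp 1 (oddc χ)) ∨ (∃ ξ η, T = rk ξ η) ∨
    (∃ f ∈ I, ∃ j, T = (bd f).XX j) ∨ (∃ f ∈ I, ∃ j, T = (bd f).YY j)}

/-- P16 -/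
def RotStmt : Prop := ∀ (F : Type) (A : F → Set ℕ) (bd : ∀ f, BD (A f)),
  (∀ f g, f ≠ g → (A f ∩ A g).Finite) → (∀ f, ∀ i ∈ A f, Even i) → ∀ I : Finset F,
  ∃ (V : L2 X →L[ℂ] L2 X) (par π : X → X), star V = V ∧ V * V = 1 ∧ Tree par π ∧
    ∀ T ∈ GenI A bd I, V * T * V ∈ NN par π

/-- P17: nuclear embedding -/
def ExactStmt : Prop := ∀ (F : Type) (A : F → Set ℕ) (bd : ∀ f, BD (A f)),
  (∀ f g, f ≠ g → (A f ∩ A g).Finite) → (∀ f, ∀ i ∈ A f, Even i) →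
  ∀ (G : Finset (L2 X →L[ℂ] L2 X)), (∀ T ∈ G, T ∈ Alg A bd) → ∀ ε : ℝ, 0 < ε →
    ∃ (D : Type) (_ : CStarAlgebra D) (_ : FiniteDimensional ℂ D)
      (φ : (L2 X →L[ℂ] L2 X) →ₗ[ℂ] D) (ψ : D →ₗ[ℂ] (L2 X →L[ℂ] L2 X)), CCP φ ∧ CCP ψ ∧
      ∀ T ∈ G, ‖ψ (φ T) - T‖ < ε

/-! ### Small pieces -/

/-- P18: almost disjoint family and codes -/
def ADStmt : Prop := ∃ A : (ℕ → Bool) → Set ℕ, (∀ f, (A f).Infinite) ∧
  (∀ f, ∀ i ∈ A f, Even i) ∧ ∀ f g, f ≠ g → (A f ∩ A g).Finite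

/-- P18' -/
def CodeStmt : Prop := ∃ dec : (ℕ → Bool) → (ℕ → X → X → ℂ), Function.Surjective dec

/-- P19 -/
def NonSepStmt : Prop := ∀ (F : Type) (A : F → Set ℕ) (bd : ∀ f, BD (A f)),
  ¬ TopologicalSpace.SeparableSpace (Alg A bd)

end

end Pool.Agent.Helper5.NE
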