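import Mathlib
import Pool.Agent.Helper5.NE.Stmts

/-! Assembly of `S06356` from the packet statements. -/

namespace Pool.Agent.Helper5.NE

open scoped InnerProductSpace ComplexConjugate ENNReal Topology
open Filter

noncomputable section

/-- the empty block data -/
def BD.triv (A : Set ℕ) : BD A where
  s := 0
  m := 0
  k _ := 0
  w _ _ := 1
  b p := p.1
  inj := by rintro ⟨n, b, p, c⟩; exact c.elim0
  mem := by rintro ⟨n, b, p, c⟩; exact c.elim0

open Classical in
/-- the chosen block data for the sequence `T` of matrices -/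
def chooseBD (A : Set ℕ) (T : ℕ → X → X → ℂ) : BD A :=
  if h : ∃ (bd : BD A) (q : ℕ) (z : ℂ) (x0 y0 : RW), Kill (T q) bd z x0 y0 then h.choose
  else BD.triv A

theorem chooseBD_spec {A : Set ℕ} {T : ℕ → X → X → ℂ}
    (h : ∃ (bd : BD A) (q : ℕ) (z : ℂ) (x0 y0 : RW), Kill (T q) bd z x0 y0) :
    ∃ (q : ℕ) (z : ℂ) (x0 y0 : RW), Kill (T q) (chooseBD A T) z x0 y0 := by
  unfold chooseBD
  rw [dif_pos h]
  exact h.choose_spec

theorem exists_ultra {A : Set ℕ} (hA : A.Infinite) :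
    ∃ U : Ultrafilter ℕ, A ∈ U ∧ (U : Filter ℕ) ≤ atTop := by
  have h : (atTop ⊓ 𝓟 A : Filter ℕ).NeBot := by
    rw [← Nat.cofinite_eq_atTop]
    exact hA.cofinite_inf_principal_neBot
  refine ⟨Ultrafilter.of (atTop ⊓ 𝓟 A), ?_, (Ultrafilter.of_le _).trans inf_le_left⟩
  exact (Ultrafilter.of_le (atTop ⊓ 𝓟 A)) (mem_inf_of_right (mem_principal_self A))

theorem mem_Alg_of_gen {F : Type} {A : F → Set ℕ} {bd : ∀ f, BD (A f)} {T : L2 X →L[ℂ] L2 X}
    (h : T ∈ Gen A bd) : T ∈ Alg A bd :=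
  StarSubalgebra.le_topologicalClosure _ (StarAlgebra.subset_adjoin ℂ _ h)

theorem lm_add (U : Ultrafilter ℕ) {T S : X → X → ℂ} {B B' : ℝ} (hT : ∀ u v, ‖T u v‖ ≤ B)
    (hS : ∀ u v, ‖S u v‖ ≤ B') (y x : RW) :
    lm U (fun u v => T u v + S u v) y x = lm U T y x + lm U S y x :=
  ((tendsto_lm U hT y x).add (tendsto_lm U hS y x)).limUnder_eq

theorem lm_smul (U : Ultrafilter ℕ) {T : X → X → ℂ} {B : ℝ} (hT : ∀ u v, ‖T u v‖ ≤ B) (c : ℂ)
    (y x : RW) : lm U (fun u v => c * T u v) y x = c * lm U T y x :=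
  ((tendsto_lm U hT y x).const_mul c).limUnder_eq

theorem no_embedding (hForm : FormStmt) (hGood : FormGoodStmt) (hPA : PartAStmt)
    (hKill : KillExStmt) (hPB : PartBStmt) (hAD : ADStmt) (hCode : CodeStmt) :
    ∃ (F : Type) (A : F → Set ℕ) (bd : ∀ f, BD (A f)), (∀ f g, f ≠ g → (A f ∩ A g).Finite) ∧
      (∀ f, ∀ i ∈ A f, Even i) ∧ ∀ (C : Type) [NonUnitalCStarAlgebra C]
      (ι : Alg A bd →⋆ₙₐ[ℂ] C), Function.Injective ι → CPAP C → False := by
  obtain ⟨A, hAinf, hAev, hAad⟩ := hAD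
  obtain ⟨dec, hdec⟩ := hCode
  refine ⟨ℕ → Bool, A, fun f => chooseBD (A f) (dec f), hAad, hAev, ?_⟩
  intro C _ ι hι hC
  obtain ⟨Φ, hΦ⟩ := hForm (Alg A fun f => chooseBD (A f) (dec f))
    (StarSubalgebra.isClosed_topologicalClosure _)
    (fun ξ η => mem_Alg_of_gen (Or.inr (Or.inr (Or.inl ⟨ξ, η, rfl⟩)))) C ι hι
  have hL : ∀ s, wp (Lam s) (fun _ => 1) ∈ Alg A fun f => chooseBD (A f) (dec f) :=
    fun s => mem_Alg_of_gen (Or.inl ⟨s, rfl⟩)
  classical
  obtain ⟨D, iD, fD, φ, ψ, hφ, hψ, happ⟩ := hC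
    (Finset.univ.image (fun s => ι ⟨wp (Lam s) (fun _ => 1), hL s⟩)) (1 / 4) (by norm_num)
  -- a finite spanning family of contractions
  let bs := Module.finBasis ℂ D
  let e : Fin (Module.finrank ℂ D) → D := fun q => ((‖bs q‖⁻¹ : ℝ) : ℂ) • bs q
  have he : ∀ q, ‖e q‖ ≤ 1 := by
    intro q
    show ‖((‖bs q‖⁻¹ : ℝ) : ℂ) • bs q‖ ≤ 1
    rw [norm_smul]
    have h1 : ‖((‖bs q‖⁻¹ : ℝ) : ℂ)‖ = ‖bs q‖⁻¹ := by
      rw [Complex.norm_real, Real.norm_of_nonneg (by positivity)]
    rw [h1]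
    exact inv_mul_le_one
  let b : ℕ → C := fun q => if h : q < Module.finrank ℂ D then ψ (e ⟨q, h⟩) else 0
  have hb : ∀ q, ‖b q‖ ≤ 1 := by
    intro q
    show ‖(if h : q < Module.finrank ℂ D then ψ (e ⟨q, h⟩) else 0 : C)‖ ≤ 1
    split_ifs with h
    · exact (hψ.1 _).trans (he _)
    · simp
  obtain ⟨f, hf⟩ := hdec (fun q u v => Φ (b q) (del u) (del v))
  by_cases hcase : ∃ (bd : BD (A f)) (q : ℕ) (z : ℂ) (x0 y0 : RW), Kill (dec f q) bd z x0 y0
  · obtain ⟨q, z, x0, y0, hK⟩ := chooseBD_spec hcase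
    refine hPB (A f) _ _ z x0 y0 hK (Alg A fun f => chooseBD (A f) (dec f)) (fun j => ?_)
      (fun j => ?_) C ι Φ hΦ hC (b q) (hb q) (fun u v => ?_)
    · exact mem_Alg_of_gen (Or.inr (Or.inr (Or.inr (Or.inl ⟨f, j, rfl⟩))))
    · exact mem_Alg_of_gen (Or.inr (Or.inr (Or.inr (Or.inr ⟨f, j, rfl⟩))))
    · rw [hf]
  · obtain ⟨U, hU1, hU2⟩ := exists_ultra (hAinf f)
    refine hPA _ hL C ι Φ hΦ D φ ψ hφ hψ (fun s => ?_) U ?_
    · exact (happ _ (Finset.mem_image_of_mem _ (Finset.mem_univ s))).le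
    · have key : ∀ q (s : Fin 9) (x y : RW),
          lm U (fun u v => Φ (b q) (del u) (del v)) (RW.Rs s y) x =
            lm U (fun u v => Φ (b q) (del u) (del v)) y (RW.Rs s x) := by
        intro q s x y
        by_contra hne
        obtain ⟨bd, z, hk⟩ := hKill (A f) U hU1 hU2 _ (hGood _ C ι Φ hΦ (b q) (hb q)).1 s x y hne
        exact hcase ⟨bd, q, z, x, y, by rw [hf]; exact hk⟩
      have key2 : ∀ q s x y, lm U (fun u v => Φ (ψ (bs q)) (del u) (del v)) (RW.Rs s y) x =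
            lm U (fun u v => Φ (ψ (bs q)) (del u) (del v)) y (RW.Rs s x) := by
        intro q s x y
        have h1 := key q s x y
        have h2 : b q = ψ (e q) := by
          show (if h : (q : ℕ) < Module.finrank ℂ D then ψ (e ⟨q, h⟩) else 0) = _
          rw [dif_pos q.2]
        have hn : bs q ≠ 0 := bs.ne_zero q
        have hn' : (‖bs q‖ : ℂ) ≠ 0 := by
          rw [Ne, Complex.ofReal_eq_zero, norm_eq_zero]
          exact hn
        have h3 : ψ (bs q) = (‖bs q‖ : ℂ) • b q := by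
          rw [h2]
          show _ = _ • ψ (((‖bs q‖⁻¹ : ℝ) : ℂ) • bs q)
          rw [map_smul, smul_smul]
          push_cast
          rw [mul_inv_cancel₀ hn', one_smul]
        have h4 : (fun u v => Φ (ψ (bs q)) (del u) (del v)) =
            fun u v => (‖bs q‖ : ℂ) * Φ (b q) (del u) (del v) := by
          funext u v
          rw [h3, map_smul]
          rfl
        have h5 := (hGood _ C ι Φ hΦ (b q) (hb q)).1.bd
        rw [h4, lm_smul U h5, lm_smul U h5, h1]
      have hbound : ∀ a : D, ∀ u v, ‖Φ (ψ a) (del u) (del v)‖ ≤ ‖a‖ := by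
        intro a u v
        have := hΦ.bound (ψ a) (del u) (del v)
        rw [norm_del, norm_del, mul_one, mul_one] at this
        exact this.trans (hψ.1 a)
      intro a s x y
      have hspan : a ∈ Submodule.span ℂ (Set.range bs) := by
        rw [bs.span_eq]; trivial
      induction hspan using Submodule.span_induction with
      | mem a ha =>
        obtain ⟨q, rfl⟩ := ha
        exact key2 q s x y
      | zero =>
        simp [lm]
      | add a a' _ _ h1 h2 =>
        have h4 : (fun u v => Φ (ψ (a + a')) (del u) (del v)) =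
            fun u v => Φ (ψ a) (del u) (del v) + Φ (ψ a') (del u) (del v) := by
          funext u v
          rw [map_add, map_add]
          rfl
        rw [h4, lm_add U (hbound a) (hbound a'), lm_add U (hbound a) (hbound a'), h1, h2]
      | smul c a _ h1 =>
        have h4 : (fun u v => Φ (ψ (c • a)) (del u) (del v)) =
            fun u v => c * Φ (ψ a) (del u) (del v) := by
          funext u v
          rw [map_smul, map_smul]
          rfl
        rw [h4, lm_smul U (hbound a), lm_smul U (hbound a), h1]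

instance {F : Type} (A : F → Set ℕ) (bd : ∀ f, BD (A f)) :
    IsClosed ((Alg A bd : StarSubalgebra ℂ (L2 X →L[ℂ] L2 X)) : Set (L2 X →L[ℂ] L2 X)) :=
  StarSubalgebra.isClosed_topologicalClosure _

end

end Pool.Agent.Helper5.NE
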