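import Mathlib
import Pool.Agent.Helper5.NE.Main
namespace Pool.Agent.Helper5.NE
open scoped InnerProductSpace ComplexConjugate ENNReal Topology
open Filter
noncomputable section

instance closedAlg {F : Type} (A : F → Set ℕ) (bd : ∀ f, BD (A f)) :
    IsClosed ((Alg A bd : StarSubalgebra ℂ (L2 X →L[ℂ] L2 X)) : Set (L2 X →L[ℂ] L2 X)) :=
  StarSubalgebra.isClosed_topologicalClosure _

instance cAlg {F : Type} (A : F → Set ℕ) (bd : ∀ f, BD (A f)) :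
    NonUnitalCStarAlgebra (Alg A bd) :=
  @CStarAlgebra.toNonUnitalCStarAlgebra _ (StarSubalgebra.cstarAlgebra _)

/-- inclusion as a linear map -/
def incL {F : Type} (A : F → Set ℕ) (bd : ∀ f, BD (A f)) : Alg A bd →ₗ[ℂ] (L2 X →L[ℂ] L2 X) where
  toFun := Subtype.val
  map_add' _ _ := rfl
  map_smul' _ _ := rfl

/-- inclusion -/
def incS {F : Type} (A : F → Set ℕ) (bd : ∀ f, BD (A f)) : Alg A bd →⋆ₙₐ[ℂ] (L2 X →L[ℂ] L2 X) where
  toFun := Subtype.val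
  map_add' _ _ := rfl
  map_mul' _ _ := rfl
  map_zero' := rfl
  map_smul' _ _ := rfl
  map_star' _ := rfl

theorem incL_ccp {F : Type} (A : F → Set ℕ) (bd : ∀ f, BD (A f)) {D : Type} [CStarAlgebra D]
    {φ : (L2 X →L[ℂ] L2 X) →ₗ[ℂ] D} (hφ : CCP φ) :
    (∀ a : Alg A bd, ‖φ (incL A bd a)‖ ≤ ‖a‖) ∧ ∀ (n : ℕ) (y : Matrix (Fin n) (Fin n) (Alg A bd)),
      ∃ z : Matrix (Fin n) (Fin n) D, (star y * y).map (φ.comp (incL A bd)) = star z * z := by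
  refine ⟨fun a => hφ.1 _, fun n y => ?_⟩
  obtain ⟨z, hz⟩ := hφ.2 n (y.map Subtype.val)
  refine ⟨z, ?_⟩
  rw [← hz]
  ext i j
  simp only [Matrix.map_apply, Matrix.mul_apply, Matrix.star_apply]
  rw [LinearMap.comp_apply, map_sum]
  rfl


/-- the frozen statement's notion of nuclear embeddability, for `Alg A bd` -/
theorem exact_part (hEx : ExactStmt) {F : Type} (A : F → Set ℕ) (bd : ∀ f, BD (A f))
    (had : ∀ f g, f ≠ g → (A f ∩ A g).Finite) (hev : ∀ f, ∀ i ∈ A f, Even i) :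
    ∃ (B : Type) (_ : NonUnitalCStarAlgebra B) (π : Alg A bd →⋆ₙₐ[ℂ] B), Function.Injective π ∧
      ∀ (F : Finset (Alg A bd)) (ε : ℝ), 0 < ε →
        ∃ (D : Type) (_ : CStarAlgebra D) (_ : FiniteDimensional ℂ D)
          (φ : Alg A bd →ₗ[ℂ] D) (ψ : D →ₗ[ℂ] B),
          (∀ a, ‖φ a‖ ≤ ‖a‖) ∧ (∀ d, ‖ψ d‖ ≤ ‖d‖) ∧
          (∀ (n : ℕ) (y : Matrix (Fin n) (Fin n) (Alg A bd)),
            ∃ z : Matrix (Fin n) (Fin n) D, (star y * y).map φ = star z * z) ∧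
          (∀ (n : ℕ) (y : Matrix (Fin n) (Fin n) D),
            ∃ z : Matrix (Fin n) (Fin n) B, (star y * y).map ψ = star z * z) ∧
          ∀ a ∈ F, ‖ψ (φ a) - π a‖ < ε := by
  refine ⟨L2 X →L[ℂ] L2 X, inferInstance, incS A bd, Subtype.val_injective, ?_⟩
  intro G ε hε
  classical
  obtain ⟨D, iD, fD, φ, ψ, hφ, hψ, happ⟩ := hEx F A bd had hev (G.image Subtype.val)
    (by
      intro T hT
      obtain ⟨a, -, rfl⟩ := Finset.mem_image.1 hT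
      exact a.2) ε hε
  have h1 := incL_ccp A bd hφ
  exact ⟨D, iD, fD, φ.comp (incL A bd), ψ, h1.1, hψ.1, h1.2, hψ.2,
    fun a ha => happ _ (Finset.mem_image_of_mem _ ha)⟩

theorem not_main (hForm : FormStmt) (hGood : FormGoodStmt) (hPA : PartAStmt)
    (hKill : KillExStmt) (hPB : PartBStmt) (hAD : ADStmt) (hCode : CodeStmt) (hEx : ExactStmt)
    (hNS : NonSepStmt) :
    ¬ (∀ (A : Type) [NonUnitalCStarAlgebra A], ¬ TopologicalSpace.SeparableSpace A →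
    (∃ (B : Type) (_ : NonUnitalCStarAlgebra B) (π : A →⋆ₙₐ[ℂ] B), Function.Injective π ∧
      ∀ (F : Finset A) (ε : ℝ), 0 < ε →
        ∃ (D : Type) (_ : CStarAlgebra D) (_ : FiniteDimensional ℂ D)
          (φ : A →ₗ[ℂ] D) (ψ : D →ₗ[ℂ] B),
          (∀ a, ‖φ a‖ ≤ ‖a‖) ∧ (∀ d, ‖ψ d‖ ≤ ‖d‖) ∧
          (∀ (n : ℕ) (y : Matrix (Fin n) (Fin n) A),
            ∃ z : Matrix (Fin n) (Fin n) D, (star y * y).map φ = star z * z) ∧
          (∀ (n : ℕ) (y : Matrix (Fin n) (Fin n) D),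
            ∃ z : Matrix (Fin n) (Fin n) B, (star y * y).map ψ = star z * z) ∧
          ∀ a ∈ F, ‖ψ (φ a) - π a‖ < ε) →
    ∃ (C : Type) (_ : NonUnitalCStarAlgebra C) (ι : A →⋆ₙₐ[ℂ] C), Function.Injective ι ∧
      ∀ (F : Finset C) (ε : ℝ), 0 < ε →
        ∃ (D : Type) (_ : CStarAlgebra D) (_ : FiniteDimensional ℂ D)
          (φ : C →ₗ[ℂ] D) (ψ : D →ₗ[ℂ] C),
          (∀ c, ‖φ c‖ ≤ ‖c‖) ∧ (∀ d, ‖ψ d‖ ≤ ‖d‖) ∧
          (∀ (n : ℕ) (y : Matrix (Fin n) (Fin n) C),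
            ∃ z : Matrix (Fin n) (Fin n) D, (star y * y).map φ = star z * z) ∧
          (∀ (n : ℕ) (y : Matrix (Fin n) (Fin n) D),
            ∃ z : Matrix (Fin n) (Fin n) C, (star y * y).map ψ = star z * z) ∧
          ∀ c ∈ F, ‖ψ (φ c) - c‖ < ε) := by
  intro h
  obtain ⟨F, A, bd, had, hev, hno⟩ := no_embedding hForm hGood hPA hKill hPB hAD hCode
  obtain ⟨C, iC, ι, hι, hC⟩ := h (Alg A bd) (hNS F A bd) (exact_part hEx A bd had hev)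
  refine hno C ι hι ?_
  intro G ε hε
  obtain ⟨D, iD, fD, φ, ψ, h1, h2, h3, h4, h5⟩ := hC G ε hε
  exact ⟨D, iD, fD, φ, ψ, ⟨h1, h3⟩, ⟨h2, h4⟩, h5⟩

end

end Pool.Agent.Helper5.NE
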