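import Mathlib
import Pool.Agent.Helper5.NE.Stmts

/-! Existence of detecting block data. -/

namespace Pool.Agent.Helper5.NE

open scoped InnerProductSpace ComplexConjugate ENNReal Topology
open Filter

noncomputable section

theorem killEx (h1 : SelStmt) (h2 : QEFormStmt) : KillExStmt := by
  classical
  intro A U hU1 hU2 T hT s x0 y0 hne
  set z : ℂ := (1 / 2 : ℂ) * (lm U T (RW.Rs s y0) x0 - lm U T y0 (RW.Rs s x0)) with hz
  have hz0 : z ≠ 0 := by
    rw [hz]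
    refine mul_ne_zero (by norm_num) (sub_ne_zero.2 hne)
  obtain ⟨m, hm, w, hw⟩ := h2 (‖z‖ / 16) (by positivity)
  obtain ⟨b, hbi, hbA, hb⟩ := h1 A U hU1 hU2 T hT {x0, y0, RW.Rs s x0, RW.Rs s y0} m
    (fun n => n + 5)
  refine ⟨⟨s, m, fun n => n + 5, fun n => w (n + 5), b, hbi, hbA⟩, z, ⟨hz0, hm,
    fun n => Nat.le_add_left 5 n, fun D _ _ => (tendsto_add_atTop_nat 5).eventually (hw D), ?_⟩⟩
  intro n p p'
  have mx0 : x0 ∈ ({x0, y0, RW.Rs s x0, RW.Rs s y0} : Finset RW) := by simp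
  have my0 : y0 ∈ ({x0, y0, RW.Rs s x0, RW.Rs s y0} : Finset RW) := by simp
  have mx1 : RW.Rs s x0 ∈ ({x0, y0, RW.Rs s x0, RW.Rs s y0} : Finset RW) := by simp
  have my1 : RW.Rs s y0 ∈ ({x0, y0, RW.Rs s x0, RW.Rs s y0} : Finset RW) := by simp
  have e1 := hb n (false, p) (false, p') x0 mx0 (RW.Rs s y0) my1
  have e2 := hb n (true, p) (false, p') (RW.Rs s x0) mx1 (RW.Rs s y0) my1
  have e3 := hb n (false, p) (true, p') x0 mx0 y0 my0
  have e4 := hb n (true, p) (true, p') (RW.Rs s x0) mx1 y0 my0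
  rw [if_neg (by simp)] at e2 e3
  show ‖(1 / 2 : ℂ) * (T (RW.Rs s y0, b ⟨n, false, p'⟩) (x0, b ⟨n, false, p⟩)
      + T (RW.Rs s y0, b ⟨n, false, p'⟩) (RW.Rs s x0, b ⟨n, true, p⟩)
      - T (y0, b ⟨n, true, p'⟩) (x0, b ⟨n, false, p⟩)
      - T (y0, b ⟨n, true, p'⟩) (RW.Rs s x0, b ⟨n, true, p⟩))
      - (if p' = p then z else 0)‖ ≤ 2 / ((n : ℝ) + 1)
  have hsplit : (1 / 2 : ℂ) * (T (RW.Rs s y0, b ⟨n, false, p'⟩) (x0, b ⟨n, false, p⟩)
      + T (RW.Rs s y0, b ⟨n, false, p'⟩) (RW.Rs s x0, b ⟨n, true, p⟩)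
      - T (y0, b ⟨n, true, p'⟩) (x0, b ⟨n, false, p⟩)
      - T (y0, b ⟨n, true, p'⟩) (RW.Rs s x0, b ⟨n, true, p⟩))
      - (if p' = p then z else 0) =
      (1 / 2 : ℂ) * ((T (RW.Rs s y0, b ⟨n, false, p'⟩) (x0, b ⟨n, false, p⟩)
        - (if (false, p') = (false, p) then lm U T (RW.Rs s y0) x0 else 0))
      + (T (RW.Rs s y0, b ⟨n, false, p'⟩) (RW.Rs s x0, b ⟨n, true, p⟩) - 0)
      - (T (y0, b ⟨n, true, p'⟩) (x0, b ⟨n, false, p⟩) - 0)
      - (T (y0, b ⟨n, true, p'⟩) (RW.Rs s x0, b ⟨n, true, p⟩)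
        - (if (true, p') = (true, p) then lm U T y0 (RW.Rs s x0) else 0))) := by
    by_cases hp : p' = p
    · subst hp
      simp only [if_true]
      rw [hz]
      ring
    · have q1 : ¬ ((false, p') = (false, p)) := fun h => hp (Prod.mk.inj h).2
      have q2 : ¬ ((true, p') = (true, p)) := fun h => hp (Prod.mk.inj h).2
      rw [if_neg hp, if_neg q1, if_neg q2]
      ring
  rw [hsplit, norm_mul]
  have hhalf : ‖(1 / 2 : ℂ)‖ = 1 / 2 := by norm_num
  rw [hhalf]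
  have t := fun (a b c d : ℂ) => show ‖a + b - c - d‖ ≤ ‖a‖ + ‖b‖ + ‖c‖ + ‖d‖ from by
    calc ‖a + b - c - d‖ ≤ ‖a + b - c‖ + ‖d‖ := norm_sub_le _ _
      _ ≤ ‖a + b‖ + ‖c‖ + ‖d‖ := by gcongr; exact norm_sub_le _ _
      _ ≤ ‖a‖ + ‖b‖ + ‖c‖ + ‖d‖ := by gcongr; exact norm_add_le _ _
  have h4 := t _ _ _ _ |>.trans (add_le_add (add_le_add (add_le_add e1 e2) e3) e4)
  have h5 : 2 / ((n : ℝ) + 1) = 1 / 2 * (1 / ((n : ℝ) + 1) + 1 / ((n : ℝ) + 1) +
      1 / ((n : ℝ) + 1) + 1 / ((n : ℝ) + 1)) := by ring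
  rw [h5]
  gcongr

/-! ### `NN par π` is a unital star algebra -/

theorem mem_NN_wp {par π : X → X} {σ : Equiv.Perm X} {c : X → ℂ} (h : MonoOK par π σ c) :
    wp σ c ∈ NN par π := Submodule.subset_span (Or.inl ⟨σ, c, h, rfl⟩)

theorem mem_NN_rk {par π : X → X} (ξ η : L2 X) : rk ξ η ∈ NN par π :=
  Submodule.subset_span (Or.inr ⟨ξ, η, rfl⟩)

theorem monoOK_mul {par π : X → X} {σ τ : Equiv.Perm X} {c d : X → ℂ} (hc : MonoOK par π σ c)
    (hd : MonoOK par π τ d) : MonoOK par π (σ * τ) (fun u => c (τ u) * d u) := by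
  obtain ⟨bc, m, hm⟩ := hc
  obtain ⟨bd, n, hn⟩ := hd
  refine ⟨(bc.comp τ).mul bd, m + n, fun u hu => ?_⟩
  have h1 : c (τ u) ≠ 0 := left_ne_zero_of_mul hu
  have h2 : d u ≠ 0 := right_ne_zero_of_mul hu
  obtain ⟨a, ha, b, hb, hab⟩ := hm _ h1
  obtain ⟨a', ha', b', hb', hab'⟩ := hn _ h2
  refine ⟨a + a', by omega, b + b', by omega, ?_⟩
  rw [Function.iterate_add_apply, hab', ← Function.iterate_add_apply, add_comm a b',
    Function.iterate_add_apply, hab, ← Function.iterate_add_apply, add_comm b' b]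
  rfl

theorem monoOK_star {par π : X → X} {σ : Equiv.Perm X} {c : X → ℂ} (hc : MonoOK par π σ c) :
    MonoOK par π σ.symm (fun u => conj (c (σ.symm u))) := by
  obtain ⟨bc, m, hm⟩ := hc
  refine ⟨(bc.comp σ.symm).conj, m, fun u hu => ?_⟩
  have h1 : c (σ.symm u) ≠ 0 := by
    intro h
    exact hu (by simp [h])
  obtain ⟨a, ha, b, hb, hab⟩ := hm _ h1
  refine ⟨b, hb, a, ha, ?_⟩
  rw [hab, Equiv.apply_symm_apply]

theorem nnAlg : NNAlgStmt := by
  intro par π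
  refine ⟨?_, ?_, ?_⟩
  · rw [← wp_one]
    exact mem_NN_wp ⟨bd_one, 0, fun u _ => ⟨0, le_rfl, 0, le_rfl, rfl⟩⟩
  · intro S hS T hT
    induction hS using Submodule.span_induction with
    | mem S hS =>
      induction hT using Submodule.span_induction with
      | mem T hT =>
        rcases hS with ⟨σ, c, hc, rfl⟩ | ⟨ξ, η, rfl⟩
        · rcases hT with ⟨τ, d, hd, rfl⟩ | ⟨ξ', η', rfl⟩
          · rw [wp_mul _ _ hc.1 hd.1]
            exact mem_NN_wp (monoOK_mul hc hd)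
          · have : wp σ c * rk ξ' η' = rk (wp σ c ξ') η' :=
              InnerProductSpace.comp_rankOne _ _ _
            rw [this]
            exact mem_NN_rk _ _
        · have : rk ξ η * T = rk ξ (star T η) := InnerProductSpace.rankOne_comp _ _ _
          rw [this]
          exact mem_NN_rk _ _
      | zero => rw [mul_zero]; exact Submodule.zero_mem _
      | add T T' _ _ h1 h2 => rw [mul_add]; exact Submodule.add_mem _ h1 h2
      | smul a T _ h1 => rw [mul_smul_comm]; exact Submodule.smul_mem _ _ h1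
    | zero => rw [zero_mul]; exact Submodule.zero_mem _
    | add T T' _ _ h1 h2 => rw [add_mul]; exact Submodule.add_mem _ h1 h2
    | smul a T _ h1 => rw [smul_mul_assoc]; exact Submodule.smul_mem _ _ h1
  · intro T hT
    induction hT using Submodule.span_induction with
    | mem T hT =>
      rcases hT with ⟨σ, c, hc, rfl⟩ | ⟨ξ, η, rfl⟩
      · rw [wp_adjoint _ hc.1]
        exact mem_NN_wp (monoOK_star hc)
      · rw [ContinuousLinearMap.star_eq_adjoint, InnerProductSpace.adjoint_rankOne]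
        exact mem_NN_rk _ _
    | zero => rw [star_zero]; exact Submodule.zero_mem _
    | add T T' _ _ h1 h2 => rw [star_add]; exact Submodule.add_mem _ h1 h2
    | smul a T _ h1 => rw [star_smul]; exact Submodule.smul_mem _ _ h1

end

end Pool.Agent.Helper5.NE
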