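import Mathlib
import Pool.Agent.Helper5.NE.Stmts

/-! Algebra of rotations. -/

namespace Pool.Agent.Helper5.NE

open scoped InnerProductSpace ComplexConjugate ENNReal Topology
open Filter

noncomputable section

namespace Rot

variable (ρ : Rot)

theorem inv_sqrt_two_le : 1 / √2 ≤ (1 : ℝ) := by
  rw [div_le_one (by positivity)]
  exact Real.one_le_sqrt.2 (by norm_num)

theorem norm_c1 (u : X) : ‖ρ.c1 u‖ ≤ 1 := by
  have h := inv_sqrt_two_le
  have h0 : (0 : ℝ) ≤ 1 / √2 := by positivity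
  unfold c1
  rcases ρ.sg u.2 with _ | _ | _
  · simp
  · show ‖((1 / √2 : ℝ) : ℂ)‖ ≤ 1
    rw [Complex.norm_real, Real.norm_of_nonneg h0]
    exact h
  · show ‖((-(1 / √2) : ℝ) : ℂ)‖ ≤ 1
    rw [Complex.norm_real, norm_neg, Real.norm_of_nonneg h0]
    exact h

theorem norm_c2 (u : X) : ‖ρ.c2 u‖ ≤ 1 := by
  have h := inv_sqrt_two_le
  have h0 : (0 : ℝ) ≤ 1 / √2 := by positivity
  unfold c2
  rcases ρ.sg u.2 with _ | b
  · simp
  · show ‖((1 / √2 : ℝ) : ℂ)‖ ≤ 1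
    rw [Complex.norm_real, Real.norm_of_nonneg h0]
    exact h

theorem bd_c1 : Bd ρ.c1 := ⟨1, ρ.norm_c1⟩
theorem bd_c2 : Bd ρ.c2 := ⟨1, ρ.norm_c2⟩

theorem U_del (u : X) : ρ.U (del u) = ρ.c1 u • del u + ρ.c2 u • del (ρ.kap u) := by
  unfold U
  rw [add_apply, wp_del _ ρ.bd_c1, wp_del _ ρ.bd_c2]
  rfl

theorem conj_c1 (u : X) : conj (ρ.c1 u) = ρ.c1 u := by
  unfold c1
  rcases ρ.sg u.2 with _ | _ | _
  · simp
  · exact Complex.conj_ofReal _
  · exact Complex.conj_ofReal _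

theorem conj_c2 (u : X) : conj (ρ.c2 u) = ρ.c2 u := by
  unfold c2
  rcases ρ.sg u.2 with _ | b
  · simp
  · exact Complex.conj_ofReal _

theorem kap_none {u : X} (h : ρ.sg u.2 = none) : ρ.kap u = u := by
  unfold kap
  rw [if_pos h]

theorem kap_some {u : X} {b : Bool} (h : ρ.sg u.2 = some b) :
    ρ.kap u = (RW.Rs (ρ.lt u.2) u.1, ρ.P u.2) := by
  unfold kap
  rw [if_neg (by simp [h])]

theorem c2_kap (u : X) : ρ.c2 (ρ.kap u) = ρ.c2 u := by
  rcases h : ρ.sg u.2 with _ | b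
  · rw [ρ.kap_none h]
  · rw [ρ.kap_some h]
    unfold c2
    simp only [ρ.sg_P _ _ h, h]

theorem c1_kap (u : X) : ρ.c2 u * ρ.c1 (ρ.kap u) = - (ρ.c1 u * ρ.c2 u) := by
  rcases h : ρ.sg u.2 with _ | b
  · rw [ρ.kap_none h]
    have : ρ.c2 u = 0 := by unfold c2; simp [h]
    simp [this]
  · rw [ρ.kap_some h]
    have h2 := ρ.sg_P _ _ h
    unfold c2 c1
    rcases b with _ | _
    · simp only [h2, h, Bool.not_false]
      push_cast
      ring
    · simp only [h2, h, Bool.not_true]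
      push_cast
      ring

theorem c_sq (u : X) : ρ.c1 u * ρ.c1 u + ρ.c2 u * ρ.c2 (ρ.kap u) = 1 := by
  rw [c2_kap]
  have h0 : ((1 / √2 : ℝ) : ℂ) * ((1 / √2 : ℝ) : ℂ) = 1 / 2 := by
    rw [← Complex.ofReal_mul]
    have : (1 / √2 : ℝ) * (1 / √2) = 1 / 2 := by
      rw [div_mul_div_comm, one_mul, Real.mul_self_sqrt (by norm_num)]
    rw [this]
    push_cast
    ring
  unfold c2 c1
  rcases ρ.sg u.2 with _ | _ | _
  · simp
  · show ((1 / √2 : ℝ) : ℂ) * ((1 / √2 : ℝ) : ℂ) + ((1 / √2 : ℝ) : ℂ) * ((1 / √2 : ℝ) : ℂ) = 1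
    rw [h0]; norm_num
  · show ((-(1 / √2) : ℝ) : ℂ) * ((-(1 / √2) : ℝ) : ℂ) + ((1 / √2 : ℝ) : ℂ) * ((1 / √2 : ℝ) : ℂ) = 1
    rw [Complex.ofReal_neg, neg_mul_neg, h0]; norm_num

theorem U_sq : ρ.U * ρ.U = 1 := by
  refine ext_del (fun u => ?_)
  rw [mul_apply_eq_comp, U_del, map_add, map_smul, map_smul, U_del, U_del, ρ.kap_kap]
  simp only [smul_add, smul_smul]
  have h1 := ρ.c_sq u
  have h2 := ρ.c1_kap u
  have e : (ρ.c1 u * ρ.c1 u) • del u + (ρ.c1 u * ρ.c2 u) • del (ρ.kap u) +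
      ((ρ.c2 u * ρ.c1 (ρ.kap u)) • del (ρ.kap u) + (ρ.c2 u * ρ.c2 (ρ.kap u)) • del u) =
      (ρ.c1 u * ρ.c1 u + ρ.c2 u * ρ.c2 (ρ.kap u)) • del u +
        (ρ.c1 u * ρ.c2 u + ρ.c2 u * ρ.c1 (ρ.kap u)) • del (ρ.kap u) := by
    simp only [add_smul]
    abel
  rw [e, h1, h2, add_neg_cancel, zero_smul, one_smul, add_zero]
  rfl

theorem U_star : star ρ.U = ρ.U := by
  unfold U
  rw [star_add, wp_adjoint _ ρ.bd_c1, wp_adjoint _ ρ.bd_c2]
  have e1 : (fun u => conj (ρ.c1 ((Equiv.symm (1 : Equiv.Perm X)) u))) = ρ.c1 := by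
    funext u
    exact ρ.conj_c1 u
  have e2 : (fun u => conj (ρ.c2 (ρ.kapE.symm u))) = ρ.c2 := by
    funext u
    rw [conj_c2]
    exact ρ.c2_kap u
  rw [e1, e2]
  rfl

theorem norm_U_le : ‖ρ.U‖ ≤ 1 := by
  have h : ‖star ρ.U * ρ.U‖ = ‖ρ.U‖ * ‖ρ.U‖ := CStarRing.norm_star_mul_self
  rw [U_star, U_sq] at h
  have h1 : ‖(1 : L2 X →L[ℂ] L2 X)‖ ≤ 1 := ContinuousLinearMap.norm_id_le
  nlinarith [norm_nonneg ρ.U]

/-- rotations commute with the left multiplications -/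
theorem U_Lam (s : Fin 9) : ρ.U * wp (Lam s) (fun _ => 1) = wp (Lam s) (fun _ => 1) * ρ.U := by
  refine ext_del (fun u => ?_)
  rw [mul_apply_eq_comp, mul_apply_eq_comp, wp_del _ bd_one, one_smul, U_del, U_del, map_add,
    map_smul, map_smul, wp_del _ bd_one, wp_del _ bd_one, one_smul, one_smul]
  have h1 : ρ.c1 (Lam s u) = ρ.c1 u := rfl
  have h2 : ρ.c2 (Lam s u) = ρ.c2 u := rfl
  have h3 : ρ.kap (Lam s u) = Lam s (ρ.kap u) := by
    rcases h : ρ.sg u.2 with _ | b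
    · rw [ρ.kap_none h, ρ.kap_none (show ρ.sg (Lam s u).2 = none from h)]
    · rw [ρ.kap_some h, ρ.kap_some (show ρ.sg (Lam s u).2 = some b from h)]
      rw [Lam_apply, Lam_apply]
      show (RW.Rs (ρ.lt u.2) (RW.Ls s u.1), ρ.P u.2) = (RW.Ls s (RW.Rs (ρ.lt u.2) u.1), ρ.P u.2)
      rw [RW.Ls_Rs]
  rw [h1, h2, h3]

open Classical in
/-- projection onto the columns in `E` -/
def chi (E : Set ℕ) : L2 X →L[ℂ] L2 X := wp 1 (fun u => if u.2 ∈ E then 1 else 0)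

open Classical in
theorem bd_chi (E : Set ℕ) : Bd (fun u : X => if u.2 ∈ E then (1 : ℂ) else 0) :=
  ⟨1, fun u => by dsimp only; split_ifs <;> simp⟩

theorem chi_del_mem {E : Set ℕ} {u : X} (h : u.2 ∈ E) : chi E (del u) = del u := by
  classical
  unfold chi
  rw [wp_del _ (bd_chi E), if_pos h, one_smul]
  rfl

theorem chi_del_not_mem {E : Set ℕ} {u : X} (h : u.2 ∉ E) : chi E (del u) = 0 := by
  classical
  unfold chi
  rw [wp_del _ (bd_chi E), if_neg h, zero_smul]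

theorem chi_star (E : Set ℕ) : star (chi E) = chi E := by
  classical
  unfold chi
  rw [wp_adjoint _ (bd_chi E)]
  congr 1
  funext u
  show conj (if u.2 ∈ E then (1 : ℂ) else 0) = _
  split_ifs <;> simp

theorem chi_mul_chi (E : Set ℕ) : chi E * chi E = chi E := by
  refine ext_del (fun u => ?_)
  rw [mul_apply_eq_comp]
  by_cases h : u.2 ∈ E
  · rw [chi_del_mem h, chi_del_mem h]
  · rw [chi_del_not_mem h, map_zero]

/-- two rotations which agree on the columns of `E` agree after cutting down to `E` -/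
theorem U_chi {ρ ρ' : Rot} {E : Set ℕ} (h1 : ∀ i ∈ E, ρ.P i = ρ'.P i)
    (h2 : ∀ i ∈ E, ρ.sg i = ρ'.sg i) (h3 : ∀ i ∈ E, ρ.lt i = ρ'.lt i) :
    ρ.U * chi E = ρ'.U * chi E := by
  refine ext_del (fun u => ?_)
  rw [mul_apply_eq_comp, mul_apply_eq_comp]
  by_cases h : u.2 ∈ E
  · rw [chi_del_mem h, U_del, U_del]
    have e1 : ρ.c1 u = ρ'.c1 u := by unfold c1; rw [h2 _ h]
    have e2 : ρ.c2 u = ρ'.c2 u := by unfold c2; rw [h2 _ h]
    have e3 : ρ.kap u = ρ'.kap u := by unfold kap; rw [h1 _ h, h2 _ h, h3 _ h]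
    rw [e1, e2, e3]
  · rw [chi_del_not_mem h, map_zero, map_zero]

theorem chi_U {ρ ρ' : Rot} {E : Set ℕ} (h1 : ∀ i ∈ E, ρ.P i = ρ'.P i)
    (h2 : ∀ i ∈ E, ρ.sg i = ρ'.sg i) (h3 : ∀ i ∈ E, ρ.lt i = ρ'.lt i) :
    chi E * ρ.U = chi E * ρ'.U := by
  have h := congrArg star (U_chi h1 h2 h3)
  rwa [star_mul, star_mul, chi_star, U_star, U_star] at h

/-- a rotation commutes with the projection onto a set of columns stable under `P` -/
theorem U_comm_chi {ρ : Rot} {E : Set ℕ} (hE : ∀ i ∈ E, ρ.P i ∈ E) :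
    ρ.U * chi E = chi E * ρ.U := by
  have hE' : ∀ i, i ∉ E → ρ.P i ∉ E := fun i hi h => hi (by simpa [ρ.P_P] using hE _ h)
  refine ext_del (fun u => ?_)
  rw [mul_apply_eq_comp, mul_apply_eq_comp]
  by_cases h : u.2 ∈ E
  · have h' : (ρ.kap u).2 ∈ E := by
      unfold kap
      split_ifs
      · exact h
      · exact hE _ h
    rw [chi_del_mem h, U_del, map_add, map_smul, map_smul, chi_del_mem h, chi_del_mem h']
  · have h' : (ρ.kap u).2 ∉ E := by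
      unfold kap
      split_ifs
      · exact h
      · exact hE' _ h
    rw [chi_del_not_mem h, map_zero, U_del, map_add, map_smul, map_smul, chi_del_not_mem h,
      chi_del_not_mem h', smul_zero, smul_zero, add_zero]

end Rot

end

end Pool.Agent.Helper5.NE
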